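import Pool.Agent.Helper96.VF.GoalsL

/-!
# Project VF (MP_6829b3_nt), packet DBLA
-/

set_option autoImplicit false

namespace Pool.Agent.Helper31.VF

open Pool.Agent.Helper96.VF

theorem geo_Ico (a : ℕ) : ∀ N, a ≤ N →
    ∑ b ∈ Finset.Ico a N, ((1 : ℝ) / 3) ^ b ≤ 3 / 2 * ((1 / 3) ^ a - (1 / 3) ^ N) := by
  intro N hN
  induction N, hN using Nat.le_induction with
  | base => simp
  | succ N hN ih =>
    rw [Finset.sum_Ico_succ_top hN, pow_succ]
    linarith

theorem geo_set (B : Finset ℕ) (a : ℕ) (h : ∀ b ∈ B, a ≤ b) :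
    ∑ b ∈ B, ((1 : ℝ) / 3) ^ b ≤ 3 / 2 * (1 / 3) ^ a := by
  have h1 : B ⊆ Finset.Ico a (a + (B.sup id + 1)) := by
    intro b hb
    rw [Finset.mem_Ico]
    have h2 : b ≤ B.sup id := Finset.le_sup (f := id) hb
    exact ⟨h b hb, by omega⟩
  refine (Finset.sum_le_sum_of_subset_of_nonneg h1 fun i _ _ => by positivity).trans ?_
  refine (geo_Ico a _ (by omega)).trans ?_
  have h3 : (0 : ℝ) ≤ (1 / 3) ^ (a + (B.sup id + 1)) := by positivity
  linarith

section

variable {p q r s : ℕ}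

theorem al_pos (hP : Par p q r s) (x : ℕ × ℕ) : 0 < al p r x := by
  have h1 : 0 < p * 4 ^ x.1 := Nat.mul_pos hP.1 (by positivity)
  exact lt_of_lt_of_le h1 (le_max_left _ _)

theorem be_pos (hP : Par p q r s) (x : ℕ × ℕ) : 0 < be q s x := by
  obtain ⟨h1, h2, h3, h4, h5, h6, h7⟩ := hP
  have a1 : 0 < q * 4 ^ x.1 := Nat.mul_pos (by omega) (by positivity)
  have a2 : 0 < s * 3 ^ x.2 := Nat.mul_pos (by omega) (by positivity)
  exact lt_min a1 a2

theorem mm_eq (p q r s : ℕ) (x : ℕ × ℕ) :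
    mm p q r s x = max 0 (1 / (al p r x : ℝ) - 1 / (be q s x : ℝ)) := by
  unfold mm mu al be
  push_cast
  rfl

theorem mm_nonneg (p q r s : ℕ) (x : ℕ × ℕ) : 0 ≤ mm p q r s x := by
  rw [mm_eq]; exact le_max_left _ _

theorem mm_act (hP : Par p q r s) (x : ℕ × ℕ) (h : al p r x < be q s x) :
    mm p q r s x = 1 / (al p r x : ℝ) - 1 / (be q s x : ℝ) := by
  rw [mm_eq, max_eq_right]
  have h1 : (0 : ℝ) < al p r x := by exact_mod_cast al_pos hP x
  have h2 : (al p r x : ℝ) ≤ be q s x := by exact_mod_cast h.le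
  have h3 := one_div_le_one_div_of_le h1 h2
  linarith

theorem mm_not (hP : Par p q r s) (x : ℕ × ℕ) (h : ¬ al p r x < be q s x) :
    mm p q r s x = 0 := by
  rw [mm_eq, max_eq_left]
  have h1 : (0 : ℝ) < be q s x := by exact_mod_cast be_pos hP x
  have h2 : (be q s x : ℝ) ≤ al p r x := by exact_mod_cast not_lt.1 h
  have h3 := one_div_le_one_div_of_le h1 h2
  linarith

theorem mm_le (hP : Par p q r s) (x : ℕ × ℕ) :
    mm p q r s x ≤ 1 / (r : ℝ) * (1 / 3) ^ x.2 := by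
  have hr : (0 : ℝ) < r := by exact_mod_cast hP.2.2.2.1
  by_cases h : al p r x < be q s x
  · rw [mm_act hP x h]
    have h1 : (0 : ℝ) ≤ 1 / (be q s x : ℝ) := by positivity
    have h2 : (r : ℝ) * 3 ^ x.2 ≤ al p r x := by
      have : r * 3 ^ x.2 ≤ al p r x := le_max_right _ _
      exact_mod_cast this
    have h3 := one_div_le_one_div_of_le (by positivity) h2
    have h4 : 1 / ((r : ℝ) * 3 ^ x.2) = 1 / (r : ℝ) * (1 / 3) ^ x.2 := by
      rw [one_div_pow]; field_simp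
    rw [h4] at h3
    linarith
  · rw [mm_not hP x h]
    positivity

/-- (a) -/
theorem act_inj (hP : Par p q r s) {j j' b : ℕ} (h : al p r (j, b) < be q s (j, b))
    (h' : al p r (j', b) < be q s (j', b)) : ¬ j < j' := by
  obtain ⟨h1, h2, h3, h4, h5, h6, h7⟩ := hP
  intro hj
  unfold al be at h h'
  simp only [max_lt_iff, lt_min_iff] at h h'
  obtain ⟨⟨a1, a2⟩, a3, a4⟩ := h
  obtain ⟨⟨b1, b2⟩, b3, b4⟩ := h'
  have c1 : 4 * 4 ^ j ≤ 4 ^ j' := by
    have : 4 ^ (j + 1) ≤ 4 ^ j' := Nat.pow_le_pow_right (by norm_num) hj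
    rw [pow_succ] at this
    omega
  -- `4 p r 4^j ≤ p r 4^j' < r s 3^b < s q 4^j`
  have c2 : 4 * (p * r) * 4 ^ j ≤ r * (p * 4 ^ j') := by
    calc 4 * (p * r) * 4 ^ j = (p * r) * (4 * 4 ^ j) := by ring
      _ ≤ (p * r) * 4 ^ j' := Nat.mul_le_mul_left _ c1
      _ = r * (p * 4 ^ j') := by ring
  have c3 : r * (p * 4 ^ j') < r * (s * 3 ^ b) := Nat.mul_lt_mul_of_pos_left b3 h4
  have c4 : r * (s * 3 ^ b) < s * (q * 4 ^ j) := by
    calc r * (s * 3 ^ b) = s * (r * 3 ^ b) := by ring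
      _ < s * (q * 4 ^ j) := Nat.mul_lt_mul_of_pos_left a2 (by omega)
  have c5 : s * (q * 4 ^ j) = s * q * 4 ^ j := by ring
  have c6 : s * q * 4 ^ j ≤ 4 * (p * r) * 4 ^ j := Nat.mul_le_mul_right _ h7
  omega

theorem act_injOn (hP : Par p q r s) (T : Finset (ℕ × ℕ))
    (hT : ∀ x ∈ T, al p r x < be q s x) : Set.InjOn Prod.snd (T : Set (ℕ × ℕ)) := by
  rintro ⟨j, b⟩ hx ⟨j', b'⟩ hx' hb
  obtain rfl : b = b' := hb
  have h1 := act_inj hP (hT _ hx) (hT _ hx')
  have h2 := act_inj hP (hT _ hx') (hT _ hx)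
  have : j = j' := by omega
  rw [this]

theorem sum_T (hP : Par p q r s) (T : Finset (ℕ × ℕ)) (hT : ∀ x ∈ T, al p r x < be q s x)
    (a : ℕ) (ha : ∀ x ∈ T, a ≤ x.2) :
    ∑ x ∈ T, mm p q r s x ≤ 1 / (r : ℝ) * (3 / 2 * (1 / 3) ^ a) := by
  have hr : (0 : ℝ) < r := by exact_mod_cast hP.2.2.2.1
  calc ∑ x ∈ T, mm p q r s x ≤ ∑ x ∈ T, 1 / (r : ℝ) * (1 / 3) ^ x.2 :=
        Finset.sum_le_sum fun x _ => mm_le hP x
    _ = 1 / (r : ℝ) * ∑ x ∈ T, ((1 : ℝ) / 3) ^ x.2 := by rw [Finset.mul_sum]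
    _ = 1 / (r : ℝ) * ∑ b ∈ T.image Prod.snd, ((1 : ℝ) / 3) ^ b := by
        rw [Finset.sum_image (act_injOn hP T hT)]
    _ ≤ 1 / (r : ℝ) * (3 / 2 * (1 / 3) ^ a) := by
        refine mul_le_mul_of_nonneg_left (geo_set _ a fun b hb => ?_) (by positivity)
        obtain ⟨x, hx, rfl⟩ := Finset.mem_image.1 hb
        exact ha x hx

open Classical in
theorem sum_any (hP : Par p q r s) (T : Finset (ℕ × ℕ)) (a : ℕ)
    (ha : ∀ x ∈ T, al p r x < be q s x → a ≤ x.2) :
    ∑ x ∈ T, mm p q r s x ≤ 1 / (r : ℝ) * (3 / 2 * (1 / 3) ^ a) := by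
  have h1 : ∑ x ∈ T, mm p q r s x = ∑ x ∈ T with al p r x < be q s x, mm p q r s x := by
    rw [Finset.sum_filter]
    refine Finset.sum_congr rfl fun x _ => ?_
    split_ifs with h
    · rfl
    · exact mm_not hP x h
  rw [h1]
  refine sum_T hP _ (fun x hx => (Finset.mem_filter.1 hx).2) a fun x hx => ?_
  rw [Finset.mem_filter] at hx
  exact ha x hx.1 hx.2

theorem summ (hP : Par p q r s) : Summable (mm p q r s) :=
  summable_of_sum_le (mm_nonneg p q r s) fun T => sum_any hP T 0 fun _ _ _ => Nat.zero_le _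

end

open Classical in
/-- **Packet DBLA.** -/
theorem gDBLA : DBLA := by
  intro p q r s hP
  refine ⟨summ hP, fun n hn => ?_⟩
  have hP' := hP
  obtain ⟨h1, h2, h3, h4, h5, h6, h7⟩ := hP'
  set P : Finset (ℕ × ℕ) := ((Finset.range (n + 1)) ×ˢ (Finset.range (n + 1))).filter
    fun x => al p r x < be q s x ∧ al p r x ≤ n with hPdef
  have hmem : ∀ x, x ∈ P ↔ (al p r x < be q s x ∧ al p r x ≤ n) := by
    intro x
    rw [hPdef, Finset.mem_filter, Finset.mem_product, Finset.mem_range, Finset.mem_range]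
    refine ⟨fun h => h.2, fun h => ⟨⟨?_, ?_⟩, h⟩⟩
    · have a1 : p * 4 ^ x.1 ≤ al p r x := le_max_left _ _
      have a2 : x.1 < 4 ^ x.1 := Nat.lt_pow_self (by norm_num)
      have a3 : 4 ^ x.1 ≤ p * 4 ^ x.1 := Nat.le_mul_of_pos_left _ h1
      omega
    · have a1 : r * 3 ^ x.2 ≤ al p r x := le_max_right _ _
      have a2 : x.2 < 3 ^ x.2 := Nat.lt_pow_self (by norm_num)
      have a3 : 3 ^ x.2 ≤ r * 3 ^ x.2 := Nat.le_mul_of_pos_left _ h4
      omega
  refine ⟨P, hmem, ?_, ?_⟩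
  · have h8 : (P.image Prod.snd).card = P.card :=
      Finset.card_image_of_injOn (act_injOn hP P fun x hx => ((hmem x).1 hx).1)
    rw [← h8, ← Finset.card_range (Nat.log 3 n + 1)]
    refine Finset.card_le_card fun b hb => ?_
    obtain ⟨x, hx, rfl⟩ := Finset.mem_image.1 hb
    have a0 := ((hmem x).1 hx).2
    have a1 : r * 3 ^ x.2 ≤ al p r x := le_max_right _ _
    have a3 : 3 ^ x.2 ≤ r * 3 ^ x.2 := Nat.le_mul_of_pos_left _ h4
    have a4 : x.2 ≤ Nat.log 3 n := Nat.le_log_of_pow_le (by norm_num) (by omega)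
    rw [Finset.mem_range]
    omega
  · have hsumP : ∑ x ∈ P, (1 / (al p r x : ℝ) - 1 / (be q s x : ℝ)) =
        ∑ x ∈ P, mm p q r s x :=
      Finset.sum_congr rfl fun x hx => (mm_act hP x ((hmem x).1 hx).1).symm
    rw [hsumP]
    have hs : Summable (mm p q r s) := summ hP
    have hlow : ∑ x ∈ P, mm p q r s x ≤ ∑' x, mm p q r s x :=
      hs.sum_le_tsum P fun x _ => mm_nonneg p q r s x
    -- the first row of the tail
    have hex : ∃ a : ℕ, n < s * 3 ^ a := by
      refine ⟨n, ?_⟩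
      have a2 : n < 3 ^ n := Nat.lt_pow_self (by norm_num)
      have a3 : 3 ^ n ≤ s * 3 ^ n := Nat.le_mul_of_pos_left _ (by omega)
      omega
    set a := Nat.find hex with ha
    have ha1 : n < s * 3 ^ a := Nat.find_spec hex
    have htail : ∀ T : Finset (ℕ × ℕ), (∀ x ∈ T, x ∉ P) →
        ∑ x ∈ T, mm p q r s x ≤ 3 * s / (2 * r * n) := by
      intro T hT
      have b1 := sum_any hP T a (fun x hx hact => by
        have b2 := hT x hx
        rw [hmem] at b2
        have b3 : n < al p r x := by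
          by_contra hcon
          exact b2 ⟨hact, by omega⟩
        refine Nat.find_min' hex ?_
        have b4 : be q s x ≤ s * 3 ^ x.2 := min_le_right _ _
        omega)
      refine b1.trans ?_
      have hr : (0 : ℝ) < r := by exact_mod_cast h4
      have hnn : (0 : ℝ) < n := by exact_mod_cast hn
      have b5 : (n : ℝ) ≤ s * 3 ^ a := by exact_mod_cast ha1.le
      have b6 : ((1 : ℝ) / 3) ^ a ≤ s / n := by
        rw [one_div_pow, div_le_div_iff₀ (by positivity) hnn]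
        linarith
      calc 1 / (r : ℝ) * (3 / 2 * (1 / 3) ^ a) ≤ 1 / (r : ℝ) * (3 / 2 * (s / n)) := by
            refine mul_le_mul_of_nonneg_left ?_ (by positivity)
            linarith
        _ = 3 * s / (2 * r * n) := by field_simp
    have hup : ∑' x, mm p q r s x ≤ ∑ x ∈ P, mm p q r s x + 3 * s / (2 * r * n) := by
      refine hs.tsum_le_of_sum_le fun T => ?_
      calc ∑ x ∈ T, mm p q r s x ≤ ∑ x ∈ P ∪ (T \ P), mm p q r s x := by
            refine Finset.sum_le_sum_of_subset_of_nonneg ?_ fun x _ _ => mm_nonneg p q r s x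
            intro x hx
            rw [Finset.mem_union, Finset.mem_sdiff]
            by_cases hxP : x ∈ P
            · exact Or.inl hxP
            · exact Or.inr ⟨hx, hxP⟩
        _ = ∑ x ∈ P, mm p q r s x + ∑ x ∈ T \ P, mm p q r s x :=
            Finset.sum_union Finset.disjoint_sdiff
        _ ≤ _ := by
            have := htail (T \ P) fun x hx => (Finset.mem_sdiff.1 hx).2
            linarith
    rw [abs_le]
    have hpos : (0 : ℝ) ≤ 3 * s / (2 * r * n) := by positivity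
    constructor
    · linarith
    · linarith

end Pool.Agent.Helper31.VF
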