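import Pool.Agent.Helper96.VF.Goals

/-!
# Project VF (MP_6829b3_nt), packet HC
-/

set_option autoImplicit false

namespace Pool.Agent.Helper31.VF

open Pool.Agent.Helper96.VF

/-- value of `H` at a quotient -/
theorem H_div {N M j b : ℕ} (hM : 0 < M) (h1 : 4 ^ j * M ≤ N) (h2 : N < 4 ^ (j + 1) * M)
    (h3 : 3 ^ b * M ≤ N) (h4 : N < 3 ^ (b + 1) * M) : H (N / M) = b + j + 2 := by
  have a1 : 4 ^ j ≤ N / M := (Nat.le_div_iff_mul_le hM).2 h1
  have a2 : N / M < 4 ^ (j + 1) := (Nat.div_lt_iff_lt_mul hM).2 h2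
  have a3 : 3 ^ b ≤ N / M := (Nat.le_div_iff_mul_le hM).2 h3
  have a4 : N / M < 3 ^ (b + 1) := (Nat.div_lt_iff_lt_mul hM).2 h4
  have hpos : 0 < 4 ^ j := by positivity
  have l4 : Nat.log 4 (N / M) = j := Nat.log_eq_of_pow_le_of_lt_pow a1 a2
  have l3 : Nat.log 3 (N / M) = b := Nat.log_eq_of_pow_le_of_lt_pow a3 a4
  unfold H
  rw [if_neg (by omega), l3, l4]

/-- **Packet HC.** -/
theorem gHC : HC := by
  intro n m p q c hm hCo hc1 hc2
  obtain ⟨⟨j, hp⟩, ⟨b, hq⟩, hpn, hn4, hqn, hn3⟩ := hCo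
  have c1 : c * n ≤ 36 * n := Nat.mul_le_mul_right _ hc2
  have c2 : 30 * n ≤ c * n := Nat.mul_le_mul_right _ hc1
  have e4 : ∀ M, 4 ^ (j + 1) * M = 4 * (4 ^ j * M) := fun M => by ring
  have e3 : ∀ i M, 3 ^ (i + 1) * M = 3 * (3 ^ i * M) := fun i M => by ring
  refine ⟨fun h36p h36q => ?_, fun h72 hno => ?_⟩
  · have p36 : 4 ^ j * (36 * m) = 36 * p := by rw [hp]; ring
    have q36 : 3 ^ b * (36 * m) = 36 * q := by rw [hq]; ring
    rw [H_div (N := n) (M := m) (j := j) (b := b) hm (by omega) (by rw [e4]; omega) (by omega)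
      (by rw [e3]; omega),
      H_div (N := c * n) (M := 36 * m) (j := j) (b := b) (by omega) (by rw [p36]; exact h36p)
      (by rw [e4, p36]; omega) (by rw [q36]; exact h36q) (by rw [e3, q36]; omega)]
  · rw [Nat.div_div_eq_div_mul, Nat.div_div_eq_div_mul]
    have p2 : 4 ^ j * (m * 2) = 2 * p := by rw [hp]; ring
    have p72 : 4 ^ j * (36 * m * 2) = 72 * p := by rw [hp]; ring
    by_cases h2q : 2 * q ≤ n
    · have h72q : 72 * q ≤ c * n := by
        by_contra hcon
        exact hno ⟨h2q, by omega⟩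
      have q2 : 3 ^ b * (m * 2) = 2 * q := by rw [hq]; ring
      have q72 : 3 ^ b * (36 * m * 2) = 72 * q := by rw [hq]; ring
      rw [H_div (N := n) (M := m * 2) (j := j) (b := b) (by omega) (by rw [p2]; omega)
        (by rw [e4, p2]; omega) (by rw [q2]; omega) (by rw [e3, q2]; omega),
        H_div (N := c * n) (M := 36 * m * 2) (j := j) (b := b) (by omega) (by rw [p72]; exact h72)
        (by rw [e4, p72]; omega) (by rw [q72]; exact h72q) (by rw [e3, q72]; omega)]
    · have hb : b ≠ 0 := by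
        rintro rfl
        rw [pow_zero, one_mul] at hq
        have h4 : 1 ≤ 4 ^ j := Nat.one_le_pow _ _ (by norm_num)
        have h5 : m ≤ p := by rw [hp]; exact Nat.le_mul_of_pos_left _ h4
        omega
      obtain ⟨i, rfl⟩ := Nat.exists_eq_succ_of_ne_zero hb
      obtain ⟨r, hr⟩ : ∃ r, r = 3 ^ i * m := ⟨_, rfl⟩
      have hqr : q = 3 * r := by rw [hq, hr]; exact e3 i m
      have q2 : 3 ^ i * (m * 2) = 2 * r := by rw [hr]; ring
      have q72 : 3 ^ i * (36 * m * 2) = 72 * r := by rw [hr]; ring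
      rw [H_div (N := n) (M := m * 2) (j := j) (b := i) (by omega) (by rw [p2]; omega)
        (by rw [e4, p2]; omega) (by rw [q2]; omega) (by rw [e3, q2]; omega),
        H_div (N := c * n) (M := 36 * m * 2) (j := j) (b := i) (by omega) (by rw [p72]; exact h72)
        (by rw [e4, p72]; omega) (by rw [q72]; omega) (by rw [e3, q72]; omega)]

end Pool.Agent.Helper31.VF
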