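import Pool.Agent.Helper67.VF.RF

/-!
# Project RF, packet RKS: the step, purely algebraic
-/

set_option autoImplicit false

namespace Pool.Agent.Helper31.VF

open Pool.Agent.Helper27.VF Pool.Agent.Helper67.RF

universe u

theorem isDer_add {A M : Type*} [Group A] [AddCommGroup M] [DistribMulAction A M]
    {δ κ : A → M} (h : IsDer δ) (h' : IsDer κ) : IsDer (fun a => δ a + κ a) := by
  intro b b'
  show δ (b * b') + κ (b * b') = δ b + κ b + b • (δ b' + κ b')
  rw [h b b', h' b b', smul_add]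
  abel

/-- The counting for one module. -/
theorem count {A : Type u} [Group A] (B : Subgroup A) (M : Type u) [AddCommGroup M]
    [DistribMulAction A M] [Finite M] (g : A)
    (hg : Nat.card {m : M // g • m = m} ^ 2 ≤ Nat.card M)
    [Finite {δ : A → M // IsDer δ}]
    (hext : ∀ f : B → M, IsDerOn B f → ∃ δ : A → M, IsDer δ ∧ ∀ b : B, δ b = f b)
    (hΘ : ∃ Θ : M → (A → M), (∀ m, IsDer (Θ m) ∧ ∀ b ∈ B, Θ m b = 0) ∧
      ∀ m m' : M, Θ m = Θ m' → g • (m - m') = m - m') :
    Finite {f : B → M // IsDer f} ∧ 0 < Nat.card {f : B → M // IsDer f} ∧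
      Nat.card {f : B → M // IsDer f} ^ 2 * Nat.card M
        ≤ Nat.card {δ : A → M // IsDer δ} ^ 2 := by
  obtain ⟨Θ, hΘ1, hΘ2⟩ := hΘ
  have hext' : ∀ f : {f : B → M // IsDer f}, ∃ δ : A → M, IsDer δ ∧ ∀ b : B, δ b = f.1 b :=
    fun f => hext f.1 (fun b b' => f.2 b b')
  choose F hF1 hF2 using hext'
  -- the derivations which vanish on `B`
  let K := {δ : A → M // IsDer δ ∧ ∀ b ∈ B, δ b = 0}
  have hK : Finite K := by
    refine Finite.of_injective (fun κ : K => (⟨κ.1, κ.2.1⟩ : {δ : A → M // IsDer δ})) ?_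
    intro κ κ' h
    have h1 : κ.1 = κ'.1 :=
      congrArg (fun δ : {δ : A → M // IsDer δ} => δ.1) h
    exact Subtype.ext h1
  have hB : Finite {f : B → M // IsDer f} := by
    refine Finite.of_injective
      (fun f : {f : B → M // IsDer f} => (⟨F f, hF1 f⟩ : {δ : A → M // IsDer δ})) ?_
    intro f f' h
    have h1 : F f = F f' := congrArg Subtype.val h
    apply Subtype.ext
    funext b
    rw [← hF2 f b, ← hF2 f' b, h1]
  have hne : Nonempty {f : B → M // IsDer f} := by
    refine ⟨⟨fun _ => 0, ?_⟩⟩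
    intro b b'
    show (0 : M) = 0 + b • (0 : M)
    rw [smul_zero, add_zero]
  have h1 : Nat.card {f : B → M // IsDer f} * Nat.card K
      ≤ Nat.card {δ : A → M // IsDer δ} := by
    rw [← Nat.card_prod]
    refine Nat.card_le_card_of_injective
      (fun x : {f : B → M // IsDer f} × K =>
        (⟨fun a => F x.1 a + x.2.1 a, isDer_add (hF1 x.1) x.2.2.1⟩ :
          {δ : A → M // IsDer δ})) ?_
    rintro ⟨f, κ⟩ ⟨f', κ'⟩ h
    have h2 : ∀ a, F f a + κ.1 a = F f' a + κ'.1 a := fun a =>
      congrFun (congrArg Subtype.val h) a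
    have h3 : f = f' := by
      apply Subtype.ext
      funext b
      have h4 := h2 (b : A)
      rw [κ.2.2 b b.2, κ'.2.2 b b.2, add_zero, add_zero, hF2, hF2] at h4
      exact h4
    subst h3
    have h5 : κ = κ' := by
      apply Subtype.ext
      funext a
      exact add_left_cancel (h2 a)
    rw [h5]
  have h2 : Nat.card M ≤ Nat.card {m : M // g • m = m} * Nat.card K := by
    rw [← Nat.card_prod]
    have hs : ∀ m : M, ∃ m' : M, Θ m' = Θ m := fun m => ⟨m, rfl⟩
    -- a section of `Θ` on its range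
    let s : (A → M) → M := fun κ => Function.invFun Θ κ
    have hs' : ∀ m : M, Θ (s (Θ m)) = Θ m := fun m => Function.invFun_eq (hs m)
    refine Nat.card_le_card_of_injective
      (fun m : M => ((⟨m - s (Θ m), hΘ2 _ _ (hs' m).symm⟩ : {m : M // g • m = m}),
        (⟨Θ m, hΘ1 m⟩ : K))) ?_
    intro m m' h
    have h3 : Θ m = Θ m' := congrArg Subtype.val (congrArg Prod.snd h)
    have h4 : m - s (Θ m) = m' - s (Θ m') := congrArg Subtype.val (congrArg Prod.fst h)
    rw [h3] at h4
    exact sub_left_injective h4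
  have hM : 0 < Nat.card M := Nat.card_pos
  have h3 : Nat.card M ≤ Nat.card K ^ 2 := by
    have h4 : Nat.card M * Nat.card M ≤ Nat.card M * Nat.card K ^ 2 := by
      calc Nat.card M * Nat.card M
          ≤ (Nat.card {m : M // g • m = m} * Nat.card K) *
            (Nat.card {m : M // g • m = m} * Nat.card K) := Nat.mul_le_mul h2 h2
        _ = Nat.card {m : M // g • m = m} ^ 2 * Nat.card K ^ 2 := by ring
        _ ≤ Nat.card M * Nat.card K ^ 2 := Nat.mul_le_mul_right _ hg
    exact Nat.le_of_mul_le_mul_left h4 hM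
  refine ⟨hB, Nat.card_pos, ?_⟩
  calc Nat.card {f : B → M // IsDer f} ^ 2 * Nat.card M
      ≤ Nat.card {f : B → M // IsDer f} ^ 2 * Nat.card K ^ 2 := Nat.mul_le_mul_left _ h3
    _ = (Nat.card {f : B → M // IsDer f} * Nat.card K) ^ 2 := by ring
    _ ≤ Nat.card {δ : A → M // IsDer δ} ^ 2 := Nat.pow_le_pow_left h1 2

open Classical in
theorem rks : RksStmt.{u} := by
  intro A _ B r hr hext hΘ
  obtain ⟨g, hg1, hΘ⟩ := hΘ
  -- for every finite set of elements of `B` a module
  have key : ∀ E : Finset B, (1 : B) ∉ E →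
      ∃ (M : Type u) (_ : AddCommGroup M) (_ : DistribMulAction A M),
        Finite M ∧ Nontrivial M ∧ (∀ b ∈ E, Nat.card {m : M // (b : A) • m = m} ^ 2 ≤ Nat.card M) ∧
        Finite {f : B → M // IsDer f} ∧ 0 < Nat.card {f : B → M // IsDer f} ∧
        Nat.card {f : B → M // IsDer f} ^ 2 * Nat.card M ≤ Nat.card M ^ r := by
    intro E hE
    have h1 : (1 : A) ∉ insert g (E.image (fun b : B => (b : A))) := by
      rw [Finset.mem_insert, Finset.mem_image]
      rintro (h | ⟨b, hb, h⟩)
      · exact hg1 h.symm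
      · apply hE
        have : b = 1 := Subtype.ext h
        rwa [this] at hb
    obtain ⟨M, i1, i2, hfin, hnt, hfix, hder, hcard⟩ := hr _ h1
    obtain ⟨h2, h3, h4⟩ := count B M g (hfix g (Finset.mem_insert_self _ _))
      (hext M) (hΘ M)
    refine ⟨M, i1, i2, hfin, hnt, ?_, h2, h3, h4.trans hcard⟩
    intro b hb
    exact hfix b (Finset.mem_insert_of_mem (Finset.mem_image_of_mem _ hb))
  obtain ⟨r', rfl⟩ : ∃ r' : ℕ, r = r' + 1 := by
    rcases r with _ | r'
    · exfalso
      obtain ⟨M, _, _, hfin, hnt, -, hf, hpos, hle⟩ := key ∅ (Finset.notMem_empty _)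
      have h1 : 1 < Nat.card M := Finite.one_lt_card
      rw [pow_zero] at hle
      have h2 : 1 ≤ Nat.card {f : B → M // IsDer f} ^ 2 := Nat.one_le_pow _ _ hpos
      nlinarith
    · exact ⟨r', rfl⟩
  refine ⟨r', rfl, ?_⟩
  intro E hE
  obtain ⟨M, i1, i2, hfin, hnt, hfix, hf, hpos, hle⟩ := key E hE
  refine ⟨M, i1, inferInstance, hfin, hnt, ?_, hf, ?_⟩
  · intro b hb
    exact hfix b hb
  · have h1 : 0 < Nat.card M := Nat.card_pos
    rw [pow_succ] at hle
    exact Nat.le_of_mul_le_mul_right hle h1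

end Pool.Agent.Helper31.VF
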